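import Pool.Agent.PDN.Stmts

/-!
# GNE: general necessity (row GNE of the table pdn)
-/

set_option autoImplicit false

open Finset

namespace Pool.Agent.PDN.H76

open Pool.Agent.PDN

/-- two families with the same multiset of values differ by a bijection -/
theorem exists_equiv_of_map_eq {V X : Type} [Fintype V] [Fintype X] (d : V → ℕ) (f : X → ℕ)
    (h : (Finset.univ : Finset V).val.map d = (Finset.univ : Finset X).val.map f) :
    ∃ e : V ≃ X, ∀ v, d v = f (e v) := by
  classical
  have hc : ∀ c : ℕ, Fintype.card {v : V // d v = c} = Fintype.card {x : X // f x = c} := by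
    intro c
    have h1 := congrArg (Multiset.count c) h
    rw [Multiset.count_map, Multiset.count_map] at h1
    rw [Fintype.card_subtype, Fintype.card_subtype]
    have h2 : ∀ (Y : Type) [Fintype Y] (g : Y → ℕ),
        (Finset.univ.filter fun y : Y => g y = c).card =
          Multiset.card (Multiset.filter (fun a => c = g a) (Finset.univ : Finset Y).val) := by
      intro Y _ g
      rw [Finset.card_def, Finset.filter_val]
      congr 1
      exact Multiset.filter_congr fun y _ => eq_comm
    rw [h2, h2, h1]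
  let F : ∀ c : ℕ, {v : V // d v = c} ≃ {x : X // f x = c} := fun c =>
    Fintype.equivOfCardEq (hc c)
  refine ⟨Equiv.ofFiberEquiv F, fun v => ?_⟩
  exact (Equiv.ofFiberEquiv_map F v).symm

theorem gne (sgn : SgnStmt) (bnd : BndStmt) (eul : EulStmt) : GneStmt := by
  classical
  intro ι _ b N h4 h8 hsum hR
  obtain ⟨V, fV, G, hG, hs⟩ := hR
  obtain ⟨g, hg⟩ : ∃ g : ι ⊕ Fin N → ℕ, g = Sum.elim b (fun _ => 4) := ⟨_, rfl⟩
  have hmap : (Finset.univ : Finset (ι ⊕ Fin N)).val.map g =
      Finset.univ.val.map b + Multiset.replicate N 4 := by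
    have h1 : (Finset.univ : Finset (ι ⊕ Fin N)).val =
        (Finset.univ : Finset ι).val.map Sum.inl + (Finset.univ : Finset (Fin N)).val.map Sum.inr := by
      rw [← Finset.univ_disjSum_univ]
      rfl
    rw [h1, Multiset.map_add, Multiset.map_map, Multiset.map_map]
    congr 1
    · subst hg; rfl
    · have h2 : (g ∘ Sum.inr : Fin N → ℕ) = fun _ => 4 := by subst hg; rfl
      rw [h2, Multiset.map_const']
      congr 1
      exact (Finset.card_univ.trans (Fintype.card_fin N))
  obtain ⟨e, he⟩ := exists_equiv_of_map_eq (fun v : V => Nat.card (G.neighborSet v)) g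
    (hs.trans hmap.symm)
  have hgl : ∀ i, g (Sum.inl i) = b i := fun i => by rw [hg]; rfl
  have hgr : ∀ j, g (Sum.inr j) = 4 := fun j => by rw [hg]; rfl
  have hge : ∀ x, 4 ∣ g x ∧ 4 ≤ g x := by
    rintro (i | j)
    · rw [hgl]; exact ⟨h4 i, le_trans (by norm_num) (h8 i)⟩
    · rw [hgr]; exact ⟨dvd_refl 4, le_refl 4⟩
  have hcard : Fintype.card V = Fintype.card ι + N := by
    rw [Fintype.card_congr e, Fintype.card_sum, Fintype.card_fin]
  have hsumV : ∑ v, Nat.card (G.neighborSet v) + 12 = 6 * Fintype.card V := by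
    have h1 : ∑ v, Nat.card (G.neighborSet v) = ∑ x, g x := by
      rw [← Equiv.sum_comp e]
      exact Finset.sum_congr rfl fun v _ => he v
    rw [h1, Fintype.sum_sum_type, hcard]
    simp only [hgl, hgr]
    rw [Finset.sum_const, Finset.card_univ, Fintype.card_fin, smul_eq_mul, mul_comm N 4]
    exact hsum
  obtain ⟨T, hTG, hconn, hT, hdeg⟩ := eul V G hG (fun v => by
    have := he v
    rw [this]; exact (hge _).2) hsumV
  have hdeg' : ∀ v, T.deg v = g (e v) := fun v => (hdeg v).trans (he v)
  obtain ⟨s, hs'⟩ := sgn V T (by rw [hTG]; exact hconn) hT (fun v => by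
    rw [hdeg']; exact (hge _).1)
  have hb := bnd V T s hs'
  have hdl : ∀ i, T.deg (e.symm (Sum.inl i)) = b i := fun i => by
    rw [hdeg', Equiv.apply_symm_apply, hgl]
  have hdr : ∀ j, T.deg (e.symm (Sum.inr j)) = 4 := fun j => by
    rw [hdeg', Equiv.apply_symm_apply, hgr]
  have hb4 : ∀ i, b i ≠ 4 := fun i => by have := h8 i; omega
  refine ⟨fun i => s (e.symm (Sum.inl i)), fun i => hs'.1 _, ?_⟩
  have hsum2 : ∑ v, (if T.deg v ≠ 4 then s v * (T.deg v : ℤ) else 0) =
      ∑ i, s (e.symm (Sum.inl i)) * (b i : ℤ) := by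
    rw [← Equiv.sum_comp e.symm, Fintype.sum_sum_type]
    have h2 : ∀ j : Fin N, (if T.deg (e.symm (Sum.inr j)) ≠ 4 then
        s (e.symm (Sum.inr j)) * (T.deg (e.symm (Sum.inr j)) : ℤ) else 0) = 0 := fun j => by
      rw [if_neg (not_not.2 (hdr j))]
    have h3 : ∀ i : ι, (if T.deg (e.symm (Sum.inl i)) ≠ 4 then
        s (e.symm (Sum.inl i)) * (T.deg (e.symm (Sum.inl i)) : ℤ) else 0) =
        s (e.symm (Sum.inl i)) * (b i : ℤ) := fun i => by
      rw [if_pos (by rw [hdl]; exact hb4 i), hdl]
    rw [Finset.sum_congr rfl fun i _ => h3 i, Finset.sum_congr rfl fun j _ => h2 j,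
      Finset.sum_const_zero, add_zero]
  have hcard2 : Nat.card {v // T.deg v ≠ 4} = Fintype.card ι := by
    rw [← Nat.card_eq_fintype_card]
    refine (Nat.card_congr (Equiv.ofBijective
      (fun i : ι => (⟨e.symm (Sum.inl i), by rw [hdl]; exact hb4 i⟩ : {v // T.deg v ≠ 4}))
      ⟨fun i j hij => ?_, fun v => ?_⟩)).symm
    · have h1 := congrArg Subtype.val hij
      exact Sum.inl_injective (e.symm.injective h1)
    · obtain ⟨v, hv⟩ := v
      rcases hx : e v with i | j
      · refine ⟨i, Subtype.ext ?_⟩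
        show e.symm (Sum.inl i) = v
        rw [← hx, Equiv.symm_apply_apply]
      · exfalso
        apply hv
        have := hdr j
        rw [← hx, Equiv.symm_apply_apply] at this
        exact this
  rw [hcard2] at hb
  rw [← hsum2]
  exact hb

end Pool.Agent.PDN.H76
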